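import Pool.Agent.D0H96.UR.Stm

/-!
Project UR, module GEO: geometry of monochromatic intervals (helper71)
-/

set_option autoImplicit false

namespace Pool.Agent.D0H71.UR

open Set Pool.Agent.D0H96.UR

/-- the canonical interval -/
def I0 (ξ : ℤ → ℤ) : Set ℤ := {x | ∀ y ∈ uIcc 0 x, 0 ≤ ξ 0 * ξ y}

theorem uIcc_split {x y z w : ℤ} (hy : y ∈ Icc x z) (hw : w ∈ uIcc 0 y) :
    w ∈ uIcc 0 x ∨ w ∈ uIcc 0 z := by
  simp only [mem_uIcc, mem_Icc] at *
  omega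

theorem mono_prod {ξ : ℤ → ℤ} {J : Set ℤ} (h0 : (0 : ℤ) ∈ J)
    (h : (∀ x ∈ J, 0 ≤ ξ x) ∨ ∀ x ∈ J, ξ x ≤ 0) : ∀ x ∈ J, 0 ≤ ξ 0 * ξ x := by
  intro x hx
  rcases h with h | h
  · exact mul_nonneg (h 0 h0) (h x hx)
  · exact mul_nonneg_of_nonpos_of_nonpos (h 0 h0) (h x hx)

theorem sub_I0 {ξ : ℤ → ℤ} {J : Set ℤ} (h0 : (0 : ℤ) ∈ J) (hc : J.OrdConnected)
    (h : (∀ x ∈ J, 0 ≤ ξ x) ∨ ∀ x ∈ J, ξ x ≤ 0) : J ⊆ I0 ξ := by
  intro x hx y hy
  exact mono_prod h0 h y (hc.uIcc_subset h0 hx hy)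

theorem I0_ok {ξ : ℤ → ℤ} (h : ξ 0 ≠ 0) :
    (I0 ξ).OrdConnected ∧ ((∀ x ∈ I0 ξ, 0 ≤ ξ x) ∨ ∀ x ∈ I0 ξ, ξ x ≤ 0) ∧
      ∃ x ∈ I0 ξ, ξ x ≠ 0 := by
  refine ⟨⟨fun x hx z hz y hy => ?_⟩, ?_, 0, ?_, h⟩
  · intro w hw
    rcases uIcc_split hy hw with h1 | h1
    · exact hx w h1
    · exact hz w h1
  · rcases lt_or_gt_of_ne h with h1 | h1
    · right
      intro x hx
      have h2 := hx x right_mem_uIcc
      by_contra h3
      push Not at h3
      have := mul_neg_of_neg_of_pos h1 h3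
      omega
    · left
      intro x hx
      have h2 := hx x right_mem_uIcc
      by_contra h3
      push Not at h3
      have := mul_neg_of_pos_of_neg h1 h3
      omega
  · intro y hy
    rw [uIcc_self, mem_singleton_iff] at hy
    rw [hy]
    exact mul_self_nonneg _

theorem isMono_I0 {ξ : ℤ → ℤ} (h : ξ 0 ≠ 0) : IsMono ξ (I0 ξ) := by
  refine ⟨I0_ok h, fun J hJ hIJ => ?_⟩
  have h0 : (0 : ℤ) ∈ J := by
    apply hIJ
    intro y hy
    rw [uIcc_self, mem_singleton_iff] at hy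
    rw [hy]
    exact mul_self_nonneg _
  exact sub_I0 h0 hJ.1 hJ.2.1

theorem t_GEO : S_GEO := by
  intro ξ N L hN hpos hneg
  have h00 : ξ 0 ≠ 0 := by
    intro h
    have := hN 0 (by simp)
    rw [h, mul_zero] at this
    exact lt_irrefl _ this
  have h0I : (0 : ℤ) ∈ I0 ξ := by
    intro y hy
    rw [uIcc_self, mem_singleton_iff] at hy
    rw [hy]
    exact mul_self_nonneg _
  refine ⟨⟨I0 ξ, isMono_I0 h00, h0I⟩, fun I hI h0 => ?_⟩
  have hsub : I ⊆ I0 ξ := sub_I0 h0 hI.1.1 hI.1.2.1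
  have hEq : I = I0 ξ := Subset.antisymm hsub (hI.2 (I0_ok h00) hsub)
  constructor
  · have h1 : (Finset.Icc (-(N : ℤ)) N : Set ℤ) ⊆ I := by
      rw [hEq]
      intro x hx y hy
      rw [Finset.coe_Icc, mem_Icc] at hx
      rw [mem_uIcc] at hy
      apply (hN y _).le
      rw [abs_le]
      omega
    calc ((2 * N + 1 : ℕ) : ℕ∞) = (Finset.Icc (-(N : ℤ)) N : Set ℤ).encard := by
          rw [encard_coe_eq_coe_finsetCard, Int.card_Icc]
          congr 1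
          omega
      _ ≤ I.encard := encard_le_encard h1
  · obtain ⟨a, ha0, haL, ha⟩ := hpos
    obtain ⟨b, hb0, hbL, hb⟩ := hneg
    have h1 : I ⊆ (Finset.Ioo (-(L : ℤ)) L : Set ℤ) := by
      rw [hEq]
      intro x hx
      rw [Finset.coe_Ioo, mem_Ioo]
      constructor
      · by_contra h
        have h2 := hx b (by rw [mem_uIcc]; omega)
        omega
      · by_contra h
        have h2 := hx a (by rw [mem_uIcc]; omega)
        omega
    calc I.encard ≤ (Finset.Ioo (-(L : ℤ)) L : Set ℤ).encard := encard_le_encard h1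
      _ = (((Finset.Ioo (-(L : ℤ)) L).card : ℕ) : ℕ∞) := encard_coe_eq_coe_finsetCard _
      _ ≤ ((2 * L : ℕ) : ℕ∞) := by
          rw [Int.card_Ioo]
          exact_mod_cast (by omega : ((L : ℤ) - -(L : ℤ) - 1).toNat ≤ 2 * L)

end Pool.Agent.D0H71.UR
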