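import Pool.Agent.D0H96.UR.Stm

/-!
Project UR, module KOL: limits of probability measures on `ℤ → ℤ` (helper71), by Prokhorov's theorem
-/

set_option autoImplicit false

namespace Pool.Agent.D0H71.UR

open Filter Topology MeasureTheory Set Pool.Agent.D0H96.UR

theorem loc_isOpen {N : ℕ} {E : Set (ℤ → ℤ)} (h : Loc N E) : IsOpen E := by
  rw [isOpen_iff_forall_mem_open]
  intro ξ hξ
  refine ⟨Set.pi (Icc (-(N : ℤ)) N) (fun x => {ξ x}), ?_,
    isOpen_set_pi (Set.finite_Icc _ _) (fun _ _ => isOpen_discrete _), by simp⟩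
  intro ξ' hξ'
  rw [Set.mem_pi] at hξ'
  exact (h ξ' ξ (fun x hx => hξ' x (by rw [abs_le] at hx; exact hx))).2 hξ

theorem loc_compl {N : ℕ} {E : Set (ℤ → ℤ)} (h : Loc N E) : Loc N Eᶜ := by
  intro ξ ξ' hx
  rw [mem_compl_iff, mem_compl_iff, h ξ ξ' hx]

theorem loc_isClopen {N : ℕ} {E : Set (ℤ → ℤ)} (h : Loc N E) : IsClopen E :=
  ⟨⟨loc_isOpen (loc_compl h)⟩, loc_isOpen h⟩

theorem tele {m : ℕ → Measure (ℤ → ℤ)} {δ : ℕ → ℕ → ℝ} {N : ℕ} {E : Set (ℤ → ℤ)}
    (h : ∀ R, |(m (R + 1)).real E - (m R).real E| ≤ δ N R) (R₀ k : ℕ) :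
    |(m (R₀ + k)).real E - (m R₀).real E| ≤
      ∑ r ∈ Finset.range (R₀ + k), δ N r - ∑ r ∈ Finset.range R₀, δ N r := by
  induction k with
  | zero => simp
  | succ k ih =>
    have h1 := h (R₀ + k)
    have h2 : (m (R₀ + (k + 1))).real E - (m R₀).real E =
        ((m (R₀ + k + 1)).real E - (m (R₀ + k)).real E) +
        ((m (R₀ + k)).real E - (m R₀).real E) := by
      rw [← add_assoc]; ring
    rw [h2, ← add_assoc, Finset.sum_range_succ]
    refine (abs_add_le _ _).trans ?_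
    linarith

theorem unif {m : ℕ → Measure (ℤ → ℤ)} {δ : ℕ → ℕ → ℝ} (hm : ∀ R, IsProbabilityMeasure (m R))
    (hδ : ∀ N, Summable (δ N))
    (h : ∀ N R E, Loc N E → |(m (R + 1)).real E - (m R).real E| ≤ δ N R)
    (N : ℕ) (A : ℕ → Set (ℤ → ℤ)) (hA : ∀ k, Loc N (A k)) (hanti : Antitone A)
    (hempty : ⋂ k, A k = ∅) {η : ℝ} (hη : 0 < η) : ∃ k, ∀ R, (m R).real (A k) ≤ η := by
  have hc : CauchySeq (fun R => ∑ r ∈ Finset.range R, δ N r) :=
    (hδ N).hasSum.tendsto_sum_nat.cauchySeq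
  obtain ⟨R₀, hR₀⟩ := Metric.cauchySeq_iff'.1 hc (η / 2) (by linarith)
  have h1 : ∀ R, ∀ᶠ k in atTop, (m R).real (A k) < η / 2 := by
    intro R
    have h2 : Tendsto (fun k => m R (A k)) atTop (𝓝 (m R (⋂ k, A k))) :=
      tendsto_measure_iInter_atTop (fun k => (loc_isOpen (hA k)).measurableSet.nullMeasurableSet)
        hanti ⟨0, measure_ne_top _ _⟩
    rw [hempty, measure_empty] at h2
    have h3 : Tendsto (fun k => (m R).real (A k)) atTop (𝓝 0) := by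
      have h4 := (ENNReal.tendsto_toReal (ENNReal.zero_ne_top)).comp h2
      exact h4
    exact h3.eventually_lt_const (by linarith)
  have h2 : ∀ᶠ k in atTop, ∀ R ∈ Finset.range (R₀ + 1), (m R).real (A k) < η / 2 := by
    rw [Filter.eventually_all_finset]
    intro R _
    exact h1 R
  obtain ⟨k, hk⟩ := h2.exists
  refine ⟨k, fun R => ?_⟩
  by_cases hR : R ≤ R₀
  · have := hk R (Finset.mem_range.2 (by omega))
    linarith
  · obtain ⟨j, rfl⟩ : ∃ j, R = R₀ + j := ⟨R - R₀, by omega⟩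
    have h3 := tele (N := N) (fun R => h N R (A k) (hA k)) R₀ j
    have h4 := hR₀ (R₀ + j) (by omega)
    rw [Real.dist_eq] at h4
    have h5 := hk R₀ (Finset.mem_range.2 (by omega))
    have h6 := (abs_lt.1 h4).2
    have h7 := (abs_le.1 h3).2
    linarith

theorem tight {m : ℕ → Measure (ℤ → ℤ)} {δ : ℕ → ℕ → ℝ} (hm : ∀ R, IsProbabilityMeasure (m R))
    (hδ : ∀ N, Summable (δ N))
    (h : ∀ N R E, Loc N E → |(m (R + 1)).real E - (m R).real E| ≤ δ N R) :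
    IsTightMeasureSet {μ : Measure (ℤ → ℤ) | ∃ R, m R = μ} := by
  rw [isTightMeasureSet_iff_exists_isCompact_measure_compl_le]
  intro ε hε
  obtain ⟨ε', hε'0, hε'⟩ := ENNReal.exists_pos_sum_of_countable hε.ne' ℤ
  have hex : ∀ x : ℤ, ∃ k : ℕ, ∀ R, (m R) {ξ | (k : ℤ) < |ξ x|} ≤ ε' x := by
    intro x
    obtain ⟨k, hk⟩ := unif hm hδ h x.natAbs (fun k => {ξ | (k : ℤ) < |ξ x|}) (by
        intro k ξ ξ' hxx
        have h1 := hxx x (by rw [Int.natCast_natAbs])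
        simp only [mem_ofPred_eq, h1]) (by
        intro k l hkl ξ hξ
        simp only [mem_ofPred_eq] at hξ ⊢
        omega) (by
        ext ξ
        simp only [mem_iInter, mem_ofPred_eq, mem_empty_iff_false, iff_false, not_forall, not_lt]
        exact ⟨(ξ x).natAbs, by rw [Int.natCast_natAbs]⟩) (η := ε' x) (by exact_mod_cast hε'0 x)
    refine ⟨k, fun R => ?_⟩
    have h1 := hk R
    rw [measureReal_def] at h1
    rw [← ENNReal.ofReal_toReal (measure_ne_top (m R) _)]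
    rw [← ENNReal.ofReal_coe_nnreal]
    exact ENNReal.ofReal_le_ofReal h1
  choose a ha using hex
  refine ⟨Set.pi univ (fun x => Icc (-(a x : ℤ)) (a x)),
    isCompact_univ_pi (fun x => (Set.finite_Icc _ _).isCompact), ?_⟩
  rintro μ ⟨R, rfl⟩
  have hsub : (Set.pi univ (fun x => Icc (-(a x : ℤ)) (a x)))ᶜ ⊆
      ⋃ x : ℤ, {ξ : ℤ → ℤ | (a x : ℤ) < |ξ x|} := by
    intro ξ hξ
    rw [mem_compl_iff, Set.mem_univ_pi, not_forall] at hξ
    obtain ⟨x, hx⟩ := hξ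
    rw [mem_iUnion]
    refine ⟨x, ?_⟩
    rw [mem_Icc, ← abs_le, not_le] at hx
    exact hx
  calc (m R) (Set.pi univ (fun x => Icc (-(a x : ℤ)) (a x)))ᶜ ≤
        (m R) (⋃ x : ℤ, {ξ : ℤ → ℤ | (a x : ℤ) < |ξ x|}) := measure_mono hsub
    _ ≤ ∑' x : ℤ, (m R) {ξ : ℤ → ℤ | (a x : ℤ) < |ξ x|} := measure_iUnion_le _
    _ ≤ ∑' x : ℤ, (ε' x : ENNReal) := ENNReal.tsum_le_tsum fun x => ha x R
    _ ≤ ε := hε'.le

theorem t_KOL : S_KOL := by
  intro m δ hm hδ h
  let P : ℕ → ProbabilityMeasure (ℤ → ℤ) := fun R => ⟨m R, hm R⟩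
  have ht : IsTightMeasureSet {((μ : ProbabilityMeasure (ℤ → ℤ)) : Measure (ℤ → ℤ)) | μ ∈ range P} := by
    have h1 := tight hm hδ h
    refine h1.subset ?_
    rintro μ ⟨ν, ⟨R, rfl⟩, rfl⟩
    exact ⟨R, rfl⟩
  have hcpt := isCompact_closure_of_isTightMeasureSet ht
  let U : Ultrafilter ℕ := Ultrafilter.of atTop
  have hU : (U : Filter ℕ) ≤ atTop := Ultrafilter.of_le atTop
  obtain ⟨μ, -, hμ⟩ := hcpt.ultrafilter_le_nhds' (U.map P) (by
    rw [Ultrafilter.mem_map]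
    exact Filter.univ_mem' fun R => subset_closure ⟨R, rfl⟩)
  have hlim : Tendsto P U (𝓝 μ) := hμ
  refine ⟨μ, μ.2, fun N E hE => ?_⟩
  have h1 : Tendsto (fun R => P R E) U (𝓝 (μ E)) :=
    ProbabilityMeasure.tendsto_measure_of_isClopen_of_tendsto hlim (loc_isClopen hE)
  have h2 : Tendsto (fun R => (m R).real E) U (𝓝 ((μ : Measure (ℤ → ℤ)).real E)) := by
    have h3 := (NNReal.continuous_coe.tendsto (μ E)).comp h1
    exact h3
  have h3 : CauchySeq (fun R => (m R).real E) := by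
    apply cauchySeq_of_summable_dist
    refine Summable.of_nonneg_of_le (fun _ => dist_nonneg) (fun R => ?_) (hδ N)
    rw [dist_comm, Real.dist_eq]
    exact h N R E hE
  obtain ⟨l, hl⟩ := cauchySeq_tendsto_of_complete h3
  have h4 : l = (μ : Measure (ℤ → ℤ)).real E := tendsto_nhds_unique (hl.mono_left hU) h2
  rw [← h4]
  exact hl

end Pool.Agent.D0H71.UR
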