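import Pool.Agent.D0H96.UR.Stm

/-!
Project UR, module PER: averages over maximal chains of sets (helper71)
-/

set_option autoImplicit false

namespace Pool.Agent.D0H71.UR

open Finset Pool.Agent.D0H96.UR

theorem cb_sq (m : ℕ) : (Nat.centralBinom m) ^ 2 * (2 * m + 1) ≤ 16 ^ m := by
  induction m with
  | zero => simp
  | succ m ih =>
    have h1 := Nat.succ_mul_centralBinom_succ m
    have h2 : ((m + 1) * Nat.centralBinom (m + 1)) ^ 2 * (2 * (m + 1) + 1) ≤
        (m + 1) ^ 2 * 16 ^ (m + 1) := by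
      rw [h1]
      calc (2 * (2 * m + 1) * Nat.centralBinom m) ^ 2 * (2 * (m + 1) + 1) =
            (4 * ((2 * m + 1) * (2 * m + 3))) * ((Nat.centralBinom m) ^ 2 * (2 * m + 1)) := by ring
        _ ≤ (16 * (m + 1) ^ 2) * 16 ^ m := by
            apply Nat.mul_le_mul _ ih
            nlinarith
        _ = _ := by ring
    have h3 : (m + 1) ^ 2 * (Nat.centralBinom (m + 1) ^ 2 * (2 * (m + 1) + 1)) ≤
        (m + 1) ^ 2 * 16 ^ (m + 1) := by
      rw [← mul_assoc, ← mul_pow]; exact h2
    exact Nat.le_of_mul_le_mul_left h3 (by positivity)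

theorem choose_sq (n k : ℕ) : (n.choose k) ^ 2 * (n + 1) ≤ 4 ^ n := by
  have h1 : n.choose k ≤ n.choose (n / 2) := Nat.choose_le_middle k n
  have h2 : (n.choose (n / 2)) ^ 2 * (n + 1) ≤ 4 ^ n := by
    rcases Nat.even_or_odd' n with ⟨m, rfl | rfl⟩
    · have h3 := cb_sq m
      rw [Nat.centralBinom_eq_two_mul_choose] at h3
      have h4 : 2 * m / 2 = m := by omega
      rw [h4, pow_mul]
      exact h3
    · have h3 := cb_sq (m + 1)
      rw [Nat.centralBinom_eq_two_mul_choose] at h3
      have h4 : (2 * m + 1) / 2 = m := by omega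
      have h5 : (2 * (m + 1)).choose (m + 1) = 2 * (2 * m + 1).choose m := by
        have h6 : 2 * (m + 1) = (2 * m + 1) + 1 := by ring
        rw [h6, Nat.choose_succ_succ', Nat.choose_symm_half]
        ring
      rw [h4]
      rw [h5] at h3
      have h7 : (4 : ℕ) ^ (2 * m + 1) = 4 * 16 ^ m := by
        rw [pow_succ, pow_mul]; norm_num [mul_comm]
      have h8 : (16 : ℕ) ^ (m + 1) = 16 * 16 ^ m := by rw [pow_succ]; ring
      rw [h7]
      rw [h8] at h3
      nlinarith [h3]
  calc (n.choose k) ^ 2 * (n + 1) ≤ (n.choose (n / 2)) ^ 2 * (n + 1) := by gcongr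
    _ ≤ 4 ^ n := h2

/-- the sets of the chain of the permutation -/
def ch {n : ℕ} (k : ℕ) (π : Equiv.Perm (Fin n)) : Finset (Fin n) :=
  univ.filter fun i => ((π i : Fin n) : ℕ) < k

theorem mem_ch {n : ℕ} (k : ℕ) (π : Equiv.Perm (Fin n)) (i : Fin n) :
    i ∈ ch k π ↔ ((π i : Fin n) : ℕ) < k := by
  simp [ch]

theorem card_ch {n k : ℕ} (hk : k ≤ n) (π : Equiv.Perm (Fin n)) : (ch k π).card = k := by
  have h1 : (ch k π).card = (univ.filter fun i : Fin n => (i : ℕ) < k).card := by
    apply card_bij (fun i _ => π i)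
    · intro i hi
      rw [mem_ch] at hi
      simpa using hi
    · intro i _ j _ h
      exact π.injective h
    · intro j hj
      refine ⟨π.symm j, ?_, by simp⟩
      rw [mem_ch, Equiv.apply_symm_apply]
      simpa using hj
  rw [h1, ← Fintype.card_subtype]
  exact Fintype.card_fin_lt_of_le hk

theorem fib_const {n k : ℕ} (S T : Finset (Fin n)) (h : S.card = T.card) :
    (univ.filter fun π => ch k π = S).card ≤ (univ.filter fun π => ch k π = T).card := by
  have e1 : {x // x ∈ S} ≃ {x // x ∈ T} := Fintype.equivOfCardEq (by simpa using h)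
  let σ : Equiv.Perm (Fin n) := e1.extendSubtype
  have hσ : ∀ x, σ x ∈ T ↔ x ∈ S := by
    intro x
    constructor
    · intro hx
      by_contra hxS
      exact (e1.extendSubtype_not_mem x hxS) hx
    · intro hx
      exact e1.extendSubtype_mem x hx
  apply card_le_card_of_injOn (fun π => σ.symm.trans π)
  · intro π hπ
    rw [mem_coe, mem_filter] at hπ ⊢
    refine ⟨mem_univ _, ?_⟩
    ext i
    have h1 : i ∈ ch k (σ.symm.trans π) ↔ σ.symm i ∈ ch k π := by
      rw [mem_ch, mem_ch, Equiv.trans_apply]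
    rw [h1, hπ.2, ← hσ, Equiv.apply_symm_apply]
  · intro π _ ρ _ h
    have h2 : σ.symm.trans π = σ.symm.trans ρ := h
    ext i
    have h3 := congrArg (fun e : Equiv.Perm (Fin n) => e (σ i)) h2
    simpa using congrArg Fin.val h3

theorem fib_card {n k : ℕ} (hk : k ≤ n) {S : Finset (Fin n)} (hS : S ∈ powersetCard k univ) :
    ((univ.filter fun π => ch k π = S).card : ℝ) * (n.choose k : ℝ) = (n.factorial : ℝ) := by
  have h1 : ∑ T ∈ powersetCard k (univ : Finset (Fin n)),
      (univ.filter fun π => ch k π = T).card = (univ : Finset (Equiv.Perm (Fin n))).card := by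
    rw [← card_eq_sum_card_fiberwise]
    intro π _
    rw [mem_coe, mem_powersetCard]
    exact ⟨subset_univ _, card_ch hk π⟩
  have h2 : ∀ T ∈ powersetCard k (univ : Finset (Fin n)),
      (univ.filter fun π => ch k π = T).card = (univ.filter fun π => ch k π = S).card := by
    intro T hT
    rw [mem_powersetCard] at hT hS
    exact le_antisymm (fib_const T S (by rw [hT.2, hS.2])) (fib_const S T (by rw [hT.2, hS.2]))
  rw [sum_congr rfl h2, sum_const, card_powersetCard, card_univ, card_univ, Fintype.card_perm,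
    Fintype.card_fin, smul_eq_mul] at h1
  rw [mul_comm]
  exact_mod_cast h1

theorem t_PER : S_PER := by
  refine ⟨1, one_pos, fun n F K hF h => ?_⟩
  have hch : ∀ (π : Equiv.Perm (Fin n)) (k : ℕ),
      (univ.filter fun i => ((π i : Fin n) : ℕ) < k) = ch k π := fun _ _ => rfl
  have hn0 : (0 : ℝ) < n.factorial := by exact_mod_cast n.factorial_pos
  have hs0 : (0 : ℝ) < √((n : ℝ) + 1) := Real.sqrt_pos.2 (by positivity)
  have h2n : (0 : ℝ) < 2 ^ n := by positivity
  -- the sum over the permutations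
  have h1 : ∑ π : Equiv.Perm (Fin n), ∑ k ∈ range (n + 1), F (ch k π) ≤ n.factorial * K := by
    calc ∑ π : Equiv.Perm (Fin n), ∑ k ∈ range (n + 1), F (ch k π) ≤
          ∑ π : Equiv.Perm (Fin n), K := sum_le_sum fun π _ => h π
      _ = n.factorial * K := by
          rw [sum_const, card_univ, Fintype.card_perm, Fintype.card_fin, nsmul_eq_mul]
  rw [sum_comm] at h1
  have hbin : ∀ k, (n.choose k : ℝ) * √((n : ℝ) + 1) ≤ 2 ^ n := by
    intro k
    have h3 : ((n.choose k : ℝ) * √((n : ℝ) + 1)) ^ 2 ≤ (2 ^ n) ^ 2 := by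
      rw [mul_pow, Real.sq_sqrt (by positivity), ← pow_mul, mul_comm n 2, pow_mul]
      have := choose_sq n k
      norm_num
      exact_mod_cast this
    exact le_of_sq_le_sq h3 h2n.le
  have h4 : ∀ k ∈ range (n + 1), (n.factorial : ℝ) * (√((n : ℝ) + 1) / 2 ^ n) *
      ∑ S ∈ powersetCard k (univ : Finset (Fin n)), F S ≤ ∑ π : Equiv.Perm (Fin n), F (ch k π) := by
    intro k hk
    have hk' : k ≤ n := by rw [mem_range] at hk; omega
    have hmap : ∀ π ∈ (univ : Finset (Equiv.Perm (Fin n))),
        ch k π ∈ powersetCard k (univ : Finset (Fin n)) := by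
      intro π _
      rw [mem_powersetCard]
      exact ⟨subset_univ _, card_ch hk' π⟩
    rw [← sum_fiberwise_of_maps_to hmap, mul_sum]
    apply sum_le_sum
    intro S hS
    have h5 : ∑ π ∈ univ.filter (fun π => ch k π = S), F (ch k π) =
        ((univ.filter fun π => ch k π = S).card : ℝ) * F S := by
      rw [← nsmul_eq_mul, ← sum_const]
      apply sum_congr rfl
      intro π hπ
      rw [(mem_filter.1 hπ).2]
    rw [h5]
    apply mul_le_mul_of_nonneg_right _ (hF S)
    rw [← fib_card hk' hS]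
    have h6 := hbin k
    have h7 : (0 : ℝ) ≤ ((univ.filter fun π => ch k π = S).card : ℝ) := Nat.cast_nonneg _
    calc ((univ.filter fun π => ch k π = S).card : ℝ) * (n.choose k : ℝ) *
          (√((n : ℝ) + 1) / 2 ^ n) =
          ((univ.filter fun π => ch k π = S).card : ℝ) *
            (((n.choose k : ℝ) * √((n : ℝ) + 1)) / 2 ^ n) := by ring
      _ ≤ ((univ.filter fun π => ch k π = S).card : ℝ) * 1 := by
          apply mul_le_mul_of_nonneg_left _ h7
          rw [div_le_one h2n]
          exact h6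
      _ = _ := mul_one _
  have h5 : (n.factorial : ℝ) * ((√((n : ℝ) + 1) / 2 ^ n) * ∑ S : Finset (Fin n), F S) ≤
      n.factorial * K := by
    rw [← powerset_univ, sum_powerset, card_univ, Fintype.card_fin, ← mul_assoc, mul_sum]
    exact (sum_le_sum h4).trans h1
  have h6 := le_of_mul_le_mul_left h5 hn0
  rw [one_mul, div_le_div_iff₀ h2n hs0]
  have h7 : √((n : ℝ) + 1) / 2 ^ n * (∑ S : Finset (Fin n), F S) * 2 ^ n ≤ K * 2 ^ n :=
    mul_le_mul_of_nonneg_right h6 h2n.le
  calc (∑ S : Finset (Fin n), F S) * √((n : ℝ) + 1) =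
        √((n : ℝ) + 1) / 2 ^ n * (∑ S : Finset (Fin n), F S) * 2 ^ n := by
        field_simp
    _ ≤ K * 2 ^ n := h7

end Pool.Agent.D0H71.UR
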